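import Mathlib

/-!
The ratios `arcC(M) / |E|` of the gammoids are dense in the positive reals.
-/

set_option autoImplicit false
set_option linter.unusedSectionVars false

namespace Pool.Agent.Results.MP_1bde1f_co.Dense

open Finset

/-- A path in the digraph with arc set `A`: a nonempty list of distinct vertices in which
consecutive vertices are joined by arcs. -/
def IsPath {V : Type} (A : Finset (V × V)) (l : List V) : Prop :=
  l ≠ [] ∧ l.Nodup ∧ l.IsChain (fun u v => (u, v) ∈ A)

/-- `R` is a routing from `X` to `T`: a set of pairwise vertex-disjoint paths, each ending in `T`,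
such that every `x ∈ X` is the first vertex of a path in `R`. -/
def IsRouting {V : Type} (A : Finset (V × V)) (X T : Set V) (R : Set (List V)) : Prop :=
  (∀ l ∈ R, IsPath A l) ∧ (∀ l ∈ R, ∀ l' ∈ R, l ≠ l' → List.Disjoint l l') ∧
    (∀ x ∈ X, ∃ l ∈ R, l.head? = some x) ∧ (∀ l ∈ R, ∃ t ∈ T, l.getLast? = some t)

/-- The matroid `M` on the ground set `α` is a gammoid: it is `Γ(D, T, E)` for a digraph
`D = (V, A)`, a set `T` of vertices and an embedding of the ground set in `V`. -/
def IsGammoid {α : Type} (M : Matroid α) : Prop :=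
  ∃ (V : Type) (_ : Finite V) (A : Finset (V × V)) (ι : α ↪ V) (T : Set V),
    ∀ X : Set α, M.Indep X ↔ ∃ R, IsRouting A (ι '' X) T R

/-- The digraph `(V, A)` with target set `T` and the ground set embedded in `V` by `ι` is a
standard representation of the matroid `M` on `α`. -/
def IsStdRep {α V : Type} (M : Matroid α) (A : Finset (V × V)) (ι : α ↪ V) (T : Set α) : Prop :=
  (∀ X : Set α, M.Indep X ↔ ∃ R, IsRouting A (ι '' X) (ι '' T) R) ∧
    (∀ t ∈ T, ∀ v, (ι t, v) ∉ A) ∧ (∀ e, e ∉ T → ∀ v, (v, ι e) ∉ A)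

/-- The arc-complexity of `M`: the least number of arcs of a standard representation. -/
noncomputable def arcC {α : Type} (M : Matroid α) : ℕ :=
  sInf {k | ∃ (V : Type) (_ : Finite V) (A : Finset (V × V)) (ι : α ↪ V) (T : Set α),
    IsStdRep M A ι T ∧ A.card = k}

/-- The set of the ratios `arcC(M) / |E|` of the gammoids with nonempty ground set. -/
def ratios : Set ℝ :=
  {q | ∃ (α : Type) (_ : Finite α) (_ : Nonempty α) (M : Matroid α), M.E = Set.univ ∧
    IsGammoid M ∧ q = (arcC M : ℝ) / (Nat.card α : ℝ)}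

/-! ### Transversal matroids -/

section TM

variable {α τ : Type}

lemma tm_aug {Rel : α → τ → Prop} (I J : Set α) (hIfin : I.Finite)
    (g : α → τ) (hg : Set.InjOn g J) (hg' : ∀ e ∈ J, Rel e (g e)) (hcard : I.ncard < J.ncard) :
    ∀ (n : ℕ) (f : α → τ), Set.InjOn f I → (∀ e ∈ I, Rel e (f e)) →
      {e ∈ I | f e ≠ g e}.ncard = n →
      ∃ e ∈ J, e ∉ I ∧ ∃ f : α → τ, Set.InjOn f (insert e I) ∧ ∀ e' ∈ insert e I, Rel e' (f e') := by
  classical
  intro n
  induction n using Nat.strong_induction_on with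
  | _ n ih =>
    intro f hf hf' hn
    have h1 : (f '' I).ncard < (g '' J).ncard := by
      rw [hf.ncard_image, hg.ncard_image]
      exact hcard
    obtain ⟨t, ⟨e₀, he₀, rfl⟩, ht⟩ := Set.exists_mem_notMem_of_ncard_lt_ncard h1
      (hIfin.image f)
    by_cases heI : e₀ ∈ I
    · have hne : f e₀ ≠ g e₀ := fun h => ht ⟨e₀, heI, h⟩
      refine ih _ ?_ (Function.update f e₀ (g e₀)) ?_ ?_ rfl
      · rw [← hn]
        apply Set.ncard_lt_ncard _ (hIfin.subset (Set.sep_subset _ _))
        refine ⟨?_, ?_⟩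
        · rintro e ⟨he, he'⟩
          by_cases h : e = e₀
          · subst h
            rw [Function.update_self] at he'
            exact absurd rfl he'
          · rw [Function.update_of_ne h] at he'
            exact ⟨he, he'⟩
        · intro hle
          have h2 := (hle (⟨heI, hne⟩ : e₀ ∈ {e ∈ I | f e ≠ g e})).2
          rw [Function.update_self] at h2
          exact h2 rfl
      · intro x hx y hy hxy
        by_cases h1 : x = e₀
        · by_cases h2 : y = e₀
          · rw [h1, h2]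
          · rw [h1, Function.update_self, Function.update_of_ne h2] at hxy
            exact absurd ⟨y, hy, hxy.symm⟩ ht
        · by_cases h2 : y = e₀
          · rw [h2, Function.update_self, Function.update_of_ne h1] at hxy
            exact absurd ⟨x, hx, hxy⟩ ht
          · rw [Function.update_of_ne h1, Function.update_of_ne h2] at hxy
            exact hf hx hy hxy
      · intro e he
        by_cases h : e = e₀
        · subst h
          rw [Function.update_self]
          exact hg' _ he₀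
        · rw [Function.update_of_ne h]
          exact hf' e he
    · refine ⟨e₀, he₀, heI, Function.update f e₀ (g e₀), ?_, ?_⟩
      · intro x hx y hy hxy
        rcases hx with hx | hx
        · rcases hy with hy | hy
          · rw [hx, hy]
          · have hye : y ≠ e₀ := fun h => heI (h ▸ hy)
            rw [hx, Function.update_self, Function.update_of_ne hye] at hxy
            exact absurd ⟨y, hy, hxy.symm⟩ ht
        · have hxe : x ≠ e₀ := fun h => heI (h ▸ hx)
          rcases hy with hy | hy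
          · rw [hy, Function.update_self, Function.update_of_ne hxe] at hxy
            exact absurd ⟨x, hx, hxy⟩ ht
          · have hye : y ≠ e₀ := fun h => heI (h ▸ hy)
            rw [Function.update_of_ne hxe, Function.update_of_ne hye] at hxy
            exact hf hx hy hxy
      · intro e he
        rcases he with he | he
        · rw [he, Function.update_self]
          exact hg' _ he₀
        · have hee : e ≠ e₀ := fun h => heI (h ▸ he)
          rw [Function.update_of_ne hee]
          exact hf' e he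

/-- The transversal matroid of a relation. -/
def TM [Finite α] [Inhabited τ] (Rel : α → τ → Prop) : Matroid α :=
  (IndepMatroid.ofFinite (E := Set.univ) Set.finite_univ
    (fun I => ∃ f : α → τ, Set.InjOn f I ∧ ∀ e ∈ I, Rel e (f e))
    ⟨fun _ => default, by simp, by simp⟩
    (fun _ _ ⟨f, hf, hf'⟩ hIJ => ⟨f, hf.mono hIJ, fun e he => hf' e (hIJ he)⟩)
    (fun I J ⟨f, hf, hf'⟩ ⟨g, hg, hg'⟩ hcard =>
      tm_aug I J (Set.toFinite _) g hg hg' hcard _ f hf hf' rfl)
    (fun _ _ => Set.subset_univ _)).matroid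

lemma TM_indep [Finite α] [Inhabited τ] (Rel : α → τ → Prop) (I : Set α) :
    (TM Rel).Indep I ↔ ∃ f : α → τ, Set.InjOn f I ∧ ∀ e ∈ I, Rel e (f e) := Iff.rfl

lemma TM_E [Finite α] [Inhabited τ] (Rel : α → τ → Prop) : (TM Rel).E = Set.univ := rfl

end TM

/-! ### Transfer of routings -/

lemma path_mem {V : Type} {A : Finset (V × V)} {P : Set V}
    (hA : ∀ u v, (u, v) ∈ A → u ∈ P ∧ v ∈ P) {l : List V}
    (hl : l.IsChain (fun u v => (u, v) ∈ A)) {t : V} (ht : l.getLast? = some t) (htP : t ∈ P) :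
    ∀ v ∈ l, v ∈ P := by
  induction l with
  | nil => intro v hv; exact absurd hv List.not_mem_nil
  | cons a l ih =>
    intro v hv
    cases l with
    | nil =>
      rw [List.mem_singleton] at hv
      rw [hv]
      have : a = t := by simpa using ht
      rw [this]
      exact htP
    | cons b l =>
      rw [List.isChain_cons_cons] at hl
      rcases List.mem_cons.1 hv with h | h
      · rw [h]
        exact (hA a b hl.1).1
      · exact ih hl.2 (by rwa [List.getLast?_cons_cons] at ht) v h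

lemma transfer {V W : Type} {A : Finset (V × V)} {B : Finset (W × W)} {f : V → W} {P : Set V}
    (hinj : Set.InjOn f P) (hA : ∀ u v, (u, v) ∈ A → u ∈ P ∧ v ∈ P)
    (hB : ∀ u v, (u, v) ∈ A → (f u, f v) ∈ B) {X T : Set V} (hT : T ⊆ P) {R : Set (List V)}
    (hR : IsRouting A X T R) : IsRouting B (f '' X) (f '' T) (List.map f '' R) := by
  obtain ⟨h1, h2, h3, h4⟩ := hR
  have hmem : ∀ l ∈ R, ∀ v ∈ l, v ∈ P := by
    intro l hl
    obtain ⟨t, ht, hlt⟩ := h4 l hl
    exact path_mem hA (h1 l hl).2.2 hlt (hT ht)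
  refine ⟨?_, ?_, ?_, ?_⟩
  · rintro _ ⟨l, hl, rfl⟩
    obtain ⟨ha, hb, hc⟩ := h1 l hl
    refine ⟨by simpa using ha, ?_, ?_⟩
    · exact List.Nodup.map_on (fun x hx y hy hxy => hinj (hmem l hl x hx) (hmem l hl y hy) hxy) hb
    · rw [List.isChain_map]
      exact hc.imp (fun u v huv => hB u v huv)
  · rintro _ ⟨l, hl, rfl⟩ _ ⟨l', hl', rfl⟩ hne
    have hne' : l ≠ l' := by
      rintro rfl
      exact hne rfl
    have hd := h2 l hl l' hl' hne'
    intro w hw hw'
    rw [List.mem_map] at hw hw'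
    obtain ⟨v, hv, rfl⟩ := hw
    obtain ⟨v', hv', hvv⟩ := hw'
    have := hinj (hmem l' hl' v' hv') (hmem l hl v hv) hvv
    subst this
    exact hd hv hv'
  · rintro _ ⟨x, hx, rfl⟩
    obtain ⟨l, hl, hlx⟩ := h3 x hx
    refine ⟨List.map f l, ⟨l, hl, rfl⟩, ?_⟩
    rw [List.head?_map, hlx]
    rfl
  · rintro _ ⟨l, hl, rfl⟩
    obtain ⟨t, ht, hlt⟩ := h4 l hl
    refine ⟨f t, ⟨t, ht, rfl⟩, ?_⟩
    rw [List.getLast?_map, hlt]
    rfl

/-- Transfer in both directions. -/
lemma transfer_iff {V W : Type} [Nonempty V] {A : Finset (V × V)} {B : Finset (W × W)} {f : V → W}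
    {P : Set V} (hinj : Set.InjOn f P) (hA : ∀ u v, (u, v) ∈ A → u ∈ P ∧ v ∈ P)
    (hB : ∀ u v, (u, v) ∈ A → (f u, f v) ∈ B)
    (hB' : ∀ u v, (u, v) ∈ B → ∃ u' v', (u', v') ∈ A ∧ f u' = u ∧ f v' = v)
    {X T : Set V} (hT : T ⊆ P) (hX : X ⊆ P) :
    (∃ R, IsRouting A X T R) ↔ ∃ R, IsRouting B (f '' X) (f '' T) R := by
  constructor
  · rintro ⟨R, hR⟩
    exact ⟨_, transfer hinj hA hB hT hR⟩
  · rintro ⟨R, hR⟩
    have hg : ∀ v ∈ P, Function.invFunOn f P (f v) = v := fun v hv =>
      hinj (Function.invFunOn_mem ⟨v, hv, rfl⟩) hv (Function.invFunOn_eq ⟨v, hv, rfl⟩)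
    have h := transfer (A := B) (B := A) (f := Function.invFunOn f P) (P := f '' P) ?_ ?_ ?_ ?_ hR
    · have e1 : ∀ Y ⊆ P, Function.invFunOn f P '' (f '' Y) = Y := by
        intro Y hY
        ext v
        constructor
        · rintro ⟨_, ⟨y, hy, rfl⟩, rfl⟩
          rw [hg y (hY hy)]
          exact hy
        · intro hv
          exact ⟨f v, ⟨v, hv, rfl⟩, hg v (hY hv)⟩
      rw [e1 X hX, e1 T hT] at h
      exact ⟨_, h⟩
    · rintro _ ⟨x, hx, rfl⟩ _ ⟨y, hy, rfl⟩ hxy
      rw [hg x hx, hg y hy] at hxy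
      rw [hxy]
    · intro u v huv
      obtain ⟨u', v', h1, rfl, rfl⟩ := hB' u v huv
      exact ⟨⟨u', (hA _ _ h1).1, rfl⟩, ⟨v', (hA _ _ h1).2, rfl⟩⟩
    · intro u v huv
      obtain ⟨u', v', h1, rfl, rfl⟩ := hB' u v huv
      rw [hg u' (hA _ _ h1).1, hg v' (hA _ _ h1).2]
      exact h1
    · exact Set.image_mono hT

/-! ### The family of transversal matroids -/

section family

variable {m : ℕ}

/-- The relation of the transversal matroid of the bipartite graph `N`. -/
def RelN (N : Fin (m + 1) → Fin (m + 1) → Prop) : Fin (m + 1) ⊕ Fin (m + 1) → Fin (m + 1) → Prop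
  | Sum.inl x, t => N x t
  | Sum.inr y, t => y = t

/-- The transversal matroid of the bipartite graph `N`. -/
def MN (N : Fin (m + 1) → Fin (m + 1) → Prop) : Matroid (Fin (m + 1) ⊕ Fin (m + 1)) := TM (RelN N)

/-- The digraph of the bipartite graph. -/
noncomputable def arcsN (N : Fin (m + 1) → Fin (m + 1) → Prop) :
    Finset ((Fin (m + 1) ⊕ Fin (m + 1)) × (Fin (m + 1) ⊕ Fin (m + 1))) := by
  classical
  exact univ.filter (fun p => ∃ x y, N x y ∧ p = (Sum.inl x, Sum.inr y))

lemma mem_arcsN {N : Fin (m + 1) → Fin (m + 1) → Prop}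
    {u v : Fin (m + 1) ⊕ Fin (m + 1)} : (u, v) ∈ arcsN N ↔
    ∃ x y, N x y ∧ u = Sum.inl x ∧ v = Sum.inr y := by
  simp [arcsN, Prod.ext_iff]

lemma stdRep_MN (N : Fin (m + 1) → Fin (m + 1) → Prop) :
    IsStdRep (MN N) (arcsN N) (Function.Embedding.refl _) (Set.range Sum.inr) := by
  classical
  refine ⟨?_, ?_, ?_⟩
  · intro X
    simp only [Function.Embedding.refl_apply, Set.image_id']
    constructor
    · rintro ⟨f, hf, hf'⟩
      let pth : Fin (m + 1) ⊕ Fin (m + 1) → List (Fin (m + 1) ⊕ Fin (m + 1)) := fun e =>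
        match e with
        | Sum.inl x => [Sum.inl x, Sum.inr (f (Sum.inl x))]
        | Sum.inr y => [Sum.inr y]
      have hlast : ∀ e ∈ X, (pth e).getLast? = some (Sum.inr (f e)) := by
        rintro (x | y) he
        · rfl
        · have : y = f (Sum.inr y) := hf' _ he
          change some (Sum.inr y) = some (Sum.inr (f (Sum.inr y)))
          rw [← this]
      have hmem : ∀ e ∈ X, ∀ v ∈ pth e, v = e ∨ v = Sum.inr (f e) := by
        rintro (x | y) he v hv
        · have hv' : v ∈ [Sum.inl x, Sum.inr (f (Sum.inl x))] := hv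
          simpa using hv'
        · have hv' : v ∈ ([Sum.inr y] : List (Fin (m + 1) ⊕ Fin (m + 1))) := hv
          left
          simpa using hv'
      have hmem' : ∀ e ∈ X, ∀ y, Sum.inr y ∈ pth e → y = f e := by
        intro e he y hy
        rcases hmem e he _ hy with h | h
        · subst h
          exact hf' _ he
        · exact Sum.inr_injective h
      refine ⟨pth '' X, ?_, ?_, ?_, ?_⟩
      · rintro _ ⟨e, he, rfl⟩
        rcases e with x | y
        · refine ⟨by simp [pth], by simp [pth], ?_⟩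
          change List.IsChain _ [Sum.inl x, Sum.inr (f (Sum.inl x))]
          rw [List.isChain_cons_cons]
          exact ⟨mem_arcsN.2 ⟨x, f (Sum.inl x), hf' _ he, rfl, rfl⟩, List.isChain_singleton _⟩
        · exact ⟨by simp [pth], by simp [pth], List.isChain_singleton _⟩
      · rintro _ ⟨e, he, rfl⟩ _ ⟨e', he', rfl⟩ hne v hv hv'
        have hee : e ≠ e' := by
          rintro rfl
          exact hne rfl
        rcases v with x | y
        · have h1 : Sum.inl x = e := by
            rcases hmem e he _ hv with h | h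
            · exact h
            · exact absurd h (by simp)
          have h2 : Sum.inl x = e' := by
            rcases hmem e' he' _ hv' with h | h
            · exact h
            · exact absurd h (by simp)
          exact hee (h1.symm.trans h2)
        · have h1 := hmem' e he y hv
          have h2 := hmem' e' he' y hv'
          exact hee (hf he he' (h1.symm.trans h2))
      · intro e he
        refine ⟨pth e, ⟨e, he, rfl⟩, ?_⟩
        rcases e with x | y <;> rfl
      · rintro _ ⟨e, he, rfl⟩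
        exact ⟨_, ⟨_, rfl⟩, hlast e he⟩
    · rintro ⟨R, h1, h2, h3, h4⟩
      choose! p hp hp' using h3
      have hl : ∀ e ∈ X, ∃ y, (p e).getLast? = some (Sum.inr y) := by
        intro e he
        obtain ⟨_, ⟨y, rfl⟩, hy⟩ := h4 _ (hp e he)
        exact ⟨y, hy⟩
      choose! f hf using hl
      refine ⟨f, ?_, ?_⟩
      · intro e he e' he' hee
        have h5 : p e = p e' := by
          by_contra hne
          have hd := h2 _ (hp e he) _ (hp e' he') hne
          have m1 : Sum.inr (f e) ∈ p e := List.mem_of_getLast? (hf e he)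
          have m2 : Sum.inr (f e') ∈ p e' := List.mem_of_getLast? (hf e' he')
          rw [← hee] at m2
          exact hd m1 m2
        have h6 := hp' e he
        rw [h5, hp' e' he'] at h6
        exact (Option.some_injective _ h6).symm
      · intro e he
        obtain ⟨hne, hnd, hch⟩ := h1 _ (hp e he)
        have hhead := hp' e he
        have hlast := hf e he
        cases hpe : p e with
        | nil => exact absurd hpe hne
        | cons a l =>
          rw [hpe] at hhead hlast hch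
          have ha : a = e := by simpa using hhead
          subst ha
          cases l with
          | nil =>
            have : a = Sum.inr (f a) := by simpa using hlast
            rw [this]
            change f a = f (Sum.inr (f a))
            rw [← this]
          | cons b l =>
            rw [List.isChain_cons_cons] at hch
            obtain ⟨x, y, hN, hax, hby⟩ := mem_arcsN.1 hch.1
            cases l with
            | nil =>
              have : b = Sum.inr (f a) := by simpa using hlast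
              rw [hby] at this
              have h7 : y = f a := Sum.inr_injective this
              subst hax
              change N x (f (Sum.inl x))
              rw [← h7]
              exact hN
            | cons c l =>
              rw [List.isChain_cons_cons] at hch
              obtain ⟨x', y', -, hb', -⟩ := mem_arcsN.1 hch.2.1
              rw [hby] at hb'
              exact absurd hb' (by simp)
  · rintro t ⟨y, rfl⟩ v hv
    obtain ⟨x', y', -, h, -⟩ := mem_arcsN.1 hv
    exact absurd h (by simp)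
  · intro e he v hv
    obtain ⟨x', y', -, -, h⟩ := mem_arcsN.1 hv
    exact he ⟨y', h.symm⟩

/-- The bipartite graph can be read off from the matroid. -/
lemma MN_recover (N : Fin (m + 1) → Fin (m + 1) → Prop) (x y : Fin (m + 1)) :
    (MN N).Indep (insert (Sum.inl x) (Sum.inr '' {y}ᶜ)) ↔ N x y := by
  constructor
  · rintro ⟨f, hf, hf'⟩
    have h1 : ∀ y', y' ≠ y → f (Sum.inr y') = y' := by
      intro y' hy'
      have : y' = f (Sum.inr y') := hf' (Sum.inr y') (Or.inr ⟨y', hy', rfl⟩)
      exact this.symm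
    have h2 : f (Sum.inl x) = y := by
      by_contra hne
      have h3 := h1 _ hne
      have h4 := hf (Or.inr ⟨_, hne, rfl⟩) (Or.inl rfl) h3
      exact absurd h4 (by simp)
    have h3 : N x (f (Sum.inl x)) := hf' (Sum.inl x) (Or.inl rfl)
    rwa [h2] at h3
  · intro h
    refine ⟨fun e => match e with
      | Sum.inl _ => y
      | Sum.inr y' => y', ?_, ?_⟩
    · rintro e he e' he' hee
      rcases he with rfl | ⟨a, ha, rfl⟩ <;> rcases he' with rfl | ⟨b, hb, rfl⟩
      · rfl
      · exact absurd hee.symm hb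
      · exact absurd hee ha
      · have : a = b := hee
        rw [this]
    · rintro e (rfl | ⟨a, ha, rfl⟩)
      · exact h
      · rfl

end family

/-! ### Adding loops does not change the arc-complexity -/

section loops

variable {α β : Type}

lemma isolated_path {V : Type} {A : Finset (V × V)} {v : V} (hv : ∀ w, (v, w) ∉ A) {l : List V}
    (hl : IsPath A l) (hh : l.head? = some v) : l = [v] := by
  cases l with
  | nil => simp at hh
  | cons a l =>
    have ha : a = v := by simpa using hh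
    subst ha
    cases l with
    | nil => rfl
    | cons b l =>
      have := hl.2.2
      rw [List.isChain_cons_cons] at this
      exact absurd this.1 (hv b)

lemma singleton_routing {V : Type} {A : Finset (V × V)} {v : V} {T : Set V} (hv : v ∈ T) :
    IsRouting A {v} T {[v]} := by
  refine ⟨?_, ?_, ?_, ?_⟩
  · rintro l rfl
    exact ⟨by simp, by simp, List.isChain_singleton _⟩
  · rintro l rfl l' rfl hne
    exact absurd rfl hne
  · rintro x rfl
    exact ⟨[x], rfl, rfl⟩
  · rintro l rfl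
    exact ⟨v, hv, rfl⟩

/-- `M'` is `M` together with loops. -/
def WithLoops (M : Matroid α) (M' : Matroid (α ⊕ β)) : Prop :=
  ∀ I : Set (α ⊕ β), M'.Indep I ↔ (∀ b, Sum.inr b ∉ I) ∧ M.Indep (Sum.inl ⁻¹' I)

variable {M : Matroid α} {M' : Matroid (α ⊕ β)}

lemma withLoops_inl (h : WithLoops M M') (X : Set α) : M'.Indep (Sum.inl '' X) ↔ M.Indep X := by
  rw [h, Set.preimage_image_eq _ Sum.inl_injective]
  simp

lemma stdRep_up [Finite β] [Nonempty α] (h : WithLoops M M') {V : Type} {A : Finset (V × V)}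
    {ι : α ↪ V} {T : Set α} (hr : IsStdRep M A ι T) :
    ∃ (A' : Finset ((V ⊕ β) × (V ⊕ β))) (ι' : α ⊕ β ↪ V ⊕ β) (T' : Set (α ⊕ β)),
      IsStdRep M' A' ι' T' ∧ A'.card = A.card := by
  classical
  have hV : Nonempty V := ⟨ι (Classical.arbitrary α)⟩
  let e : V × V ↪ (V ⊕ β) × (V ⊕ β) := ⟨Prod.map Sum.inl Sum.inl,
    Sum.inl_injective.prodMap Sum.inl_injective⟩
  have hmem : ∀ u v, (u, v) ∈ A.map e ↔ ∃ u' v', (u', v') ∈ A ∧ Sum.inl u' = u ∧ Sum.inl v' = v := by
    intro u v
    rw [mem_map]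
    constructor
    · rintro ⟨⟨u', v'⟩, h1, h2⟩
      exact ⟨u', v', h1, congrArg Prod.fst h2, congrArg Prod.snd h2⟩
    · rintro ⟨u', v', h1, rfl, rfl⟩
      exact ⟨(u', v'), h1, rfl⟩
  refine ⟨A.map e, ⟨Sum.map ι id, ι.injective.sumMap Function.injective_id⟩, Sum.inl '' T,
    ⟨?_, ?_, ?_⟩, card_map _⟩
  · intro X
    have hT : ((⟨Sum.map ι id, ι.injective.sumMap Function.injective_id⟩ : α ⊕ β ↪ V ⊕ β) ''
        (Sum.inl '' T)) = Sum.inl '' (ι '' T) := by
      rw [Set.image_image, Set.image_image]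
      rfl
    rw [hT]
    by_cases hX : ∀ b, Sum.inr b ∉ X
    · have hXe : X = Sum.inl '' (Sum.inl ⁻¹' X) := by
        ext z
        rcases z with z | z
        · simp
        · simp [hX z]
      rw [hXe, withLoops_inl h, hr.1]
      have hX2 : ((⟨Sum.map ι id, ι.injective.sumMap Function.injective_id⟩ : α ⊕ β ↪ V ⊕ β) ''
          (Sum.inl '' (Sum.inl ⁻¹' X))) = Sum.inl '' (ι '' (Sum.inl ⁻¹' X)) := by
        rw [Set.image_image, Set.image_image]
        rfl
      rw [hX2]
      exact transfer_iff (P := Set.univ) Sum.inl_injective.injOn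
        (fun u v _ => ⟨trivial, trivial⟩) (fun u v huv => (hmem _ _).2 ⟨u, v, huv, rfl, rfl⟩)
        (fun u v huv => (hmem _ _).1 huv) (Set.subset_univ _) (Set.subset_univ _)
    · push Not at hX
      obtain ⟨b, hb⟩ := hX
      constructor
      · intro hI
        exact absurd hb (((h X).1 hI).1 b)
      · rintro ⟨R, h1, h2, h3, h4⟩
        obtain ⟨l, hl, hlb⟩ := h3 (Sum.inr b) ⟨Sum.inr b, hb, rfl⟩
        have hlb' := isolated_path (A := A.map e) (by
          intro w hw
          obtain ⟨u', v', -, hu, -⟩ := (hmem _ _).1 hw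
          exact absurd hu (by simp)) (h1 l hl) hlb
        obtain ⟨t, ⟨t', -, ht'⟩, ht⟩ := h4 l hl
        rw [hlb'] at ht
        have : (Sum.inr b : V ⊕ β) = t := by simpa using ht
        rw [← this] at ht'
        exact absurd ht' (by simp)
  · rintro _ ⟨t, ht, rfl⟩ v hv
    obtain ⟨u', v', h1, h2, -⟩ := (hmem _ _).1 hv
    have h3 : u' = ι t := Sum.inl_injective h2
    subst h3
    exact hr.2.1 t ht v' h1
  · rintro (e' | b) he v hv
    · obtain ⟨u', v', h1, -, h2⟩ := (hmem _ _).1 hv
      have h3 : v' = ι e' := Sum.inl_injective h2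
      subst h3
      exact hr.2.2 e' (fun h4 => he ⟨e', h4, rfl⟩) u' h1
    · obtain ⟨u', v', -, -, h2⟩ := (hmem _ _).1 hv
      exact absurd h2 (by simp)

lemma stdRep_down (h : WithLoops M M') {V : Type} {A : Finset (V × V)} {ι : α ⊕ β ↪ V}
    {T : Set (α ⊕ β)} (hr : IsStdRep M' A ι T) :
    IsStdRep M A (Function.Embedding.inl.trans ι) (Sum.inl ⁻¹' T) := by
  have hTinr : ∀ b, Sum.inr b ∉ T := by
    intro b hb
    have h1 : M'.Indep {Sum.inr b} := by
      rw [hr.1, Set.image_singleton]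
      exact ⟨_, singleton_routing ⟨_, hb, rfl⟩⟩
    exact ((h _).1 h1).1 b rfl
  have hT : (Function.Embedding.inl.trans ι : α → V) '' (Sum.inl ⁻¹' T) = ι '' T := by
    ext v
    constructor
    · rintro ⟨a, ha, rfl⟩
      exact ⟨Sum.inl a, ha, rfl⟩
    · rintro ⟨a | b, ha, rfl⟩
      · exact ⟨a, ha, rfl⟩
      · exact absurd ha (hTinr b)
  refine ⟨?_, ?_, ?_⟩
  · intro X
    rw [hT, ← withLoops_inl h X, hr.1, Set.image_image]
    rfl
  · intro t ht v
    exact hr.2.1 (Sum.inl t) ht v
  · intro e he v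
    exact hr.2.2 (Sum.inl e) he v

lemma arcC_withLoops [Finite β] [Nonempty α] (h : WithLoops M M') : arcC M' = arcC M := by
  have h1 : {k | ∃ (V : Type) (_ : Finite V) (A : Finset (V × V)) (ι : α ⊕ β ↪ V)
      (T : Set (α ⊕ β)), IsStdRep M' A ι T ∧ A.card = k} =
      {k | ∃ (V : Type) (_ : Finite V) (A : Finset (V × V)) (ι : α ↪ V) (T : Set α),
      IsStdRep M A ι T ∧ A.card = k} := by
    ext k
    constructor
    · rintro ⟨V, hV, A, ι, T, hr, hk⟩
      exact ⟨V, hV, A, _, _, stdRep_down h hr, hk⟩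
    · rintro ⟨V, hV, A, ι, T, hr, hk⟩
      obtain ⟨A', ι', T', hr', hk'⟩ := stdRep_up h hr
      exact ⟨V ⊕ β, inferInstance, A', ι', T', hr', hk'.trans hk⟩
  unfold arcC
  rw [h1]

end loops

/-! ### Relabelling the vertices -/

section relabel

lemma relabel {α V : Type} [Finite α] [Nonempty α] {M : Matroid α} {A : Finset (V × V)}
    {ι : α ↪ V} {T : Set α} (hr : IsStdRep M A ι T) {K : ℕ} (hK : A.card ≤ K) :
    ∃ c : Fin K → Option ((α ⊕ Fin (2 * K)) × (α ⊕ Fin (2 * K))),
      ∃ B : Finset ((α ⊕ Fin (2 * K)) × (α ⊕ Fin (2 * K))),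
      (∀ p, p ∈ B ↔ ∃ i, c i = some p) ∧
      ∀ X : Set α, M.Indep X ↔ ∃ R, IsRouting B (Sum.inl '' X) (Sum.inl '' T) R := by
  classical
  have hV : Nonempty V := ⟨ι (Classical.arbitrary α)⟩
  let Q : Finset V := A.image Prod.fst ∪ A.image Prod.snd
  have hQ : Q.card ≤ 2 * K := by
    have h1 := card_union_le (A.image Prod.fst) (A.image Prod.snd)
    have h2 : (A.image Prod.fst).card ≤ A.card := card_image_le
    have h3 : (A.image Prod.snd).card ≤ A.card := card_image_le
    change (A.image Prod.fst ∪ A.image Prod.snd).card ≤ _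
    omega
  obtain ⟨g⟩ : Nonempty (Q ↪ Fin (2 * K)) := by
    rw [Function.Embedding.nonempty_iff_card_le]
    simpa using hQ
  let f : V → α ⊕ Fin (2 * K) := fun v =>
    if h : v ∈ Set.range ι then Sum.inl h.choose
    else if h' : v ∈ Q then Sum.inr (g ⟨v, h'⟩) else Sum.inl (Classical.arbitrary α)
  have hfι : ∀ a, f (ι a) = Sum.inl a := by
    intro a
    have h : ι a ∈ Set.range ι := ⟨a, rfl⟩
    have h1 : f (ι a) = Sum.inl h.choose := dif_pos h
    rw [h1]
    exact congrArg _ (ι.injective h.choose_spec)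
  have hfQ : ∀ v (h : v ∉ Set.range ι) (h' : v ∈ Q), f v = Sum.inr (g ⟨v, h'⟩) := by
    intro v h h'
    have h1 : f v = if h' : v ∈ Q then Sum.inr (g ⟨v, h'⟩) else Sum.inl (Classical.arbitrary α) :=
      dif_neg h
    rw [h1, dif_pos h']
  let P : Set V := Set.range ι ∪ Q
  have hinj : Set.InjOn f P := by
    intro u hu v hv huv
    by_cases h1 : u ∈ Set.range ι
    · obtain ⟨a, rfl⟩ := h1
      by_cases h2 : v ∈ Set.range ι
      · obtain ⟨b, rfl⟩ := h2
        rw [hfι, hfι] at huv
        rw [Sum.inl_injective huv]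
      · have h3 : v ∈ Q := hv.resolve_left h2
        rw [hfι, hfQ v h2 h3] at huv
        exact absurd huv (by simp)
    · have h3 : u ∈ Q := hu.resolve_left h1
      by_cases h2 : v ∈ Set.range ι
      · obtain ⟨b, rfl⟩ := h2
        rw [hfι, hfQ u h1 h3] at huv
        exact absurd huv (by simp)
      · have h4 : v ∈ Q := hv.resolve_left h2
        rw [hfQ u h1 h3, hfQ v h2 h4] at huv
        exact congrArg Subtype.val (g.injective (Sum.inr_injective huv))
  have hAP : ∀ u v, (u, v) ∈ A → u ∈ P ∧ v ∈ P := by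
    intro u v huv
    exact ⟨Or.inr (mem_union_left _ (mem_image_of_mem Prod.fst huv)),
      Or.inr (mem_union_right _ (mem_image_of_mem Prod.snd huv))⟩
  let B := A.image (Prod.map f f)
  have hBK : B.card ≤ K := card_image_le.trans hK
  have hB1 : ∀ u v, (u, v) ∈ A → (f u, f v) ∈ B := fun u v huv =>
    mem_image_of_mem (Prod.map f f) huv
  have hB2 : ∀ u v, (u, v) ∈ B → ∃ u' v', (u', v') ∈ A ∧ f u' = u ∧ f v' = v := by
    intro u v huv
    obtain ⟨⟨u', v'⟩, h1, h2⟩ := mem_image.1 huv
    exact ⟨u', v', h1, congrArg Prod.fst h2, congrArg Prod.snd h2⟩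
  refine ⟨fun i => if h : (i : ℕ) < B.card then some (B.equivFin.symm ⟨i, h⟩ : _) else none, B,
    ?_, ?_⟩
  · intro p
    constructor
    · intro hp
      have h1 : (B.equivFin ⟨p, hp⟩ : ℕ) < B.card := (B.equivFin ⟨p, hp⟩).2
      refine ⟨⟨(B.equivFin ⟨p, hp⟩ : ℕ), h1.trans_le hBK⟩, ?_⟩
      simp
    · rintro ⟨i, hi⟩
      dsimp only at hi
      by_cases h : (i : ℕ) < B.card
      · rw [dif_pos h] at hi
        rw [← Option.some_injective _ hi]
        exact (B.equivFin.symm ⟨i, h⟩).2
      · rw [dif_neg h] at hi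
        exact absurd hi (by simp)
  · intro X
    rw [hr.1]
    have hX : ∀ Y : Set α, (Sum.inl '' Y : Set (α ⊕ Fin (2 * K))) = f '' (ι '' Y) := by
      intro Y
      rw [Set.image_image]
      exact Set.image_congr (fun a _ => (hfι a).symm)
    rw [hX X, hX T]
    exact transfer_iff hinj hAP hB1 hB2
      (fun v ⟨t, _, ht⟩ => Or.inl ⟨t, ht⟩) (fun v ⟨t, _, ht⟩ => Or.inl ⟨t, ht⟩)

end relabel

/-! ### Counting -/

section counting

lemma arcC_spec {α : Type} {M : Matroid α} {V : Type} [Finite V] {A : Finset (V × V)} {ι : α ↪ V}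
    {T : Set α} (hr : IsStdRep M A ι T) :
    ∃ (V' : Type) (_ : Finite V') (A' : Finset (V' × V')) (ι' : α ↪ V') (T' : Set α),
      IsStdRep M A' ι' T' ∧ A'.card = arcC M :=
  Nat.sInf_mem (s := {k | ∃ (V : Type) (_ : Finite V) (A : Finset (V × V)) (ι : α ↪ V)
    (T : Set α), IsStdRep M A ι T ∧ A.card = k}) ⟨_, V, inferInstance, A, ι, T, hr, rfl⟩

lemma count {m K : ℕ} (h : ∀ N : Fin (m + 1) → Fin (m + 1) → Prop, arcC (MN N) ≤ K) :
    2 ^ ((m + 1) * (m + 1)) ≤ 2 ^ (2 * (m + 1)) * ((2 * (m + 1) + 2 * K) ^ 2 + 1) ^ K := by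
  classical
  have h1 : ∀ N : Fin (m + 1) → Fin (m + 1) → Prop,
      ∃ d : Set (Fin (m + 1) ⊕ Fin (m + 1)) ×
        (Fin K → Option (((Fin (m + 1) ⊕ Fin (m + 1)) ⊕ Fin (2 * K)) ×
          ((Fin (m + 1) ⊕ Fin (m + 1)) ⊕ Fin (2 * K)))),
      ∃ B : Finset (((Fin (m + 1) ⊕ Fin (m + 1)) ⊕ Fin (2 * K)) ×
          ((Fin (m + 1) ⊕ Fin (m + 1)) ⊕ Fin (2 * K))),
      (∀ p, p ∈ B ↔ ∃ i, d.2 i = some p) ∧
      ∀ X : Set (Fin (m + 1) ⊕ Fin (m + 1)), (MN N).Indep X ↔
        ∃ R, IsRouting B (Sum.inl '' X) (Sum.inl '' d.1) R := by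
    intro N
    obtain ⟨V, hV, A, ι, T, hr, hA⟩ := arcC_spec (stdRep_MN N)
    obtain ⟨c, B, hc, hB⟩ := relabel hr (hA.trans_le (h N))
    exact ⟨(T, c), B, hc, hB⟩
  choose d B hd hB using h1
  have hinj : Function.Injective d := by
    intro N N' hNN
    have h2 : B N = B N' := by
      ext p
      rw [hd N, hd N', hNN]
    funext x y
    rw [← MN_recover N, ← MN_recover N', hB, hB, h2, hNN]
  have h3 := Nat.card_le_card_of_injective d hinj
  have h4 : Nat.card (Fin (m + 1) → Fin (m + 1) → Prop) = 2 ^ ((m + 1) * (m + 1)) := by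
    rw [Nat.card_eq_fintype_card]
    simp [pow_mul]
  have h5 : Nat.card (Set (Fin (m + 1) ⊕ Fin (m + 1)) ×
        (Fin K → Option (((Fin (m + 1) ⊕ Fin (m + 1)) ⊕ Fin (2 * K)) ×
          ((Fin (m + 1) ⊕ Fin (m + 1)) ⊕ Fin (2 * K))))) =
      2 ^ (2 * (m + 1)) * ((2 * (m + 1) + 2 * K) ^ 2 + 1) ^ K := by
    rw [Nat.card_eq_fintype_card]
    simp only [Fintype.card_prod, Fintype.card_set, Fintype.card_sum, Fintype.card_fin,
      Fintype.card_fun, Fintype.card_option]
    ring
  rw [h4, h5] at h3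
  exact h3

lemma exp_beats (c : ℕ) : ∃ m : ℕ,
    2 ^ (2 * (m + 1)) * ((2 * (m + 1) + 2 * (c * (2 * (m + 1)))) ^ 2 + 1) ^ (c * (2 * (m + 1))) <
      2 ^ ((m + 1) * (m + 1)) := by
  -- choose `n` with `4 * ((4c+3)^2 n^2)^(2c) < 2^n`
  have h1 : ∃ n : ℕ, 1 ≤ n ∧ 4 * (((4 * c + 3) * n) ^ 2) ^ (2 * c) < 2 ^ n := by
    have h2 := (isLittleO_pow_const_const_pow_of_one_lt (R := ℝ) (4 * c)
      (one_lt_two : (1 : ℝ) < 2))
    have h3 := h2.bound (c := (8 * ((4 * c + 3 : ℝ)) ^ (4 * c))⁻¹) (by positivity)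
    obtain ⟨n, hn, hn1⟩ := (h3.and (Filter.eventually_ge_atTop 1)).exists
    refine ⟨n, hn1, ?_⟩
    rw [Real.norm_of_nonneg (by positivity), Real.norm_of_nonneg (by positivity)] at hn
    have h4 : (0 : ℝ) < 8 * (4 * c + 3 : ℝ) ^ (4 * c) := by positivity
    rw [inv_mul_eq_div, le_div_iff₀ h4] at hn
    have h5 : (0 : ℝ) < 2 ^ n := by positivity
    have h6 : (4 * (((4 * c + 3) * n) ^ 2) ^ (2 * c) : ℝ) < 2 ^ n := by
      have e1 : (4 * (((4 * c + 3) * n) ^ 2) ^ (2 * c) : ℝ) =
          4 * (4 * c + 3 : ℝ) ^ (4 * c) * (n : ℝ) ^ (4 * c) := by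
        rw [← pow_mul, mul_pow, show 2 * (2 * c) = 4 * c by ring]
        ring
      rw [e1]
      nlinarith
    exact_mod_cast h6
  obtain ⟨n, hn1, hn⟩ := h1
  obtain ⟨m, rfl⟩ : ∃ m, n = m + 1 := ⟨n - 1, by omega⟩
  refine ⟨m, ?_⟩
  have h7 : (2 * (m + 1) + 2 * (c * (2 * (m + 1)))) ^ 2 + 1 ≤ ((4 * c + 3) * (m + 1)) ^ 2 := by
    have e1 : (4 * c + 3) * (m + 1) = (2 * (m + 1) + 2 * (c * (2 * (m + 1)))) + (m + 1) := by ring
    rw [e1]
    nlinarith [Nat.zero_le ((2 * (m + 1) + 2 * (c * (2 * (m + 1)))) * (m + 1)), Nat.zero_le m]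
  calc 2 ^ (2 * (m + 1)) * ((2 * (m + 1) + 2 * (c * (2 * (m + 1)))) ^ 2 + 1) ^
        (c * (2 * (m + 1)))
      ≤ 2 ^ (2 * (m + 1)) * (((4 * c + 3) * (m + 1)) ^ 2) ^ (c * (2 * (m + 1))) :=
        Nat.mul_le_mul_left _ (Nat.pow_le_pow_left h7 _)
    _ = (4 * (((4 * c + 3) * (m + 1)) ^ 2) ^ (2 * c)) ^ (m + 1) := by
        generalize ((4 * c + 3) * (m + 1)) ^ 2 = z
        rw [mul_pow, ← pow_mul z, pow_mul 2 2,
          show c * (2 * (m + 1)) = 2 * c * (m + 1) by ring]
        norm_num
    _ < (2 ^ (m + 1)) ^ (m + 1) := Nat.pow_lt_pow_left hn (by omega)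
    _ = 2 ^ ((m + 1) * (m + 1)) := by rw [← pow_mul]

/-- The arc-complexity is not linear in the size of the ground set. -/
lemma arc_large (c : ℕ) : ∃ (m : ℕ) (N : Fin (m + 1) → Fin (m + 1) → Prop),
    c * (2 * (m + 1)) < arcC (MN N) := by
  by_contra hcon
  push Not at hcon
  obtain ⟨m, hm⟩ := exp_beats c
  exact absurd (count (hcon m)) (not_le.2 hm)

end counting

/-! ### Adding loops to the transversal matroids, and the density -/

section final

variable {m : ℕ}

/-- The relation with loops added. -/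
def RelL (N : Fin (m + 1) → Fin (m + 1) → Prop) (k : ℕ) :
    (Fin (m + 1) ⊕ Fin (m + 1)) ⊕ Fin k → Fin (m + 1) → Prop
  | Sum.inl e, t => RelN N e t
  | Sum.inr _, _ => False

/-- The transversal matroid with `k` loops added. -/
def ML (N : Fin (m + 1) → Fin (m + 1) → Prop) (k : ℕ) :
    Matroid ((Fin (m + 1) ⊕ Fin (m + 1)) ⊕ Fin k) := TM (RelL N k)

lemma ML_withLoops (N : Fin (m + 1) → Fin (m + 1) → Prop) (k : ℕ) :
    WithLoops (MN N) (ML N k) := by
  intro I
  constructor
  · rintro ⟨f, hf, hf'⟩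
    refine ⟨fun b hb => hf' _ hb, ⟨fun e => f (Sum.inl e), ?_, ?_⟩⟩
    · intro x hx y hy hxy
      exact Sum.inl_injective (hf hx hy hxy)
    · intro e he
      exact hf' _ he
  · rintro ⟨h1, ⟨f, hf, hf'⟩⟩
    refine ⟨fun e => match e with
      | Sum.inl e => f e
      | Sum.inr _ => 0, ?_, ?_⟩
    · rintro (x | x) hx (y | y) hy hxy
      · exact congrArg _ (hf hx hy hxy)
      · exact absurd hy (h1 y)
      · exact absurd hx (h1 x)
      · exact absurd hx (h1 x)
    · rintro (x | x) hx
      · exact hf' _ hx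
      · exact absurd hx (h1 x)

lemma ML_gammoid (N : Fin (m + 1) → Fin (m + 1) → Prop) (k : ℕ) : IsGammoid (ML N k) := by
  obtain ⟨A, ι, T, hr, -⟩ := stdRep_up (ML_withLoops N k) (stdRep_MN N)
  exact ⟨_, inferInstance, A, ι, ι '' T, hr.1⟩

/-- **Density.** Between any two positive reals there is a ratio `arcC(M) / |E|` of a gammoid. -/
theorem result (a b : ℝ) (ha : 0 < a) (hab : a < b) : ∃ q ∈ ratios, a < q ∧ q < b := by
  have hb : 0 < b := ha.trans hab
  have hd : 0 < 1 / a - 1 / b := by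
    rw [sub_pos]
    exact one_div_lt_one_div_of_lt ha hab
  obtain ⟨c, hc⟩ := exists_nat_gt (max b (1 / (1 / a - 1 / b)))
  obtain ⟨m, N, hN⟩ := arc_large c
  have hcb : b < c := (le_max_left _ _).trans_lt hc
  have hc2 : 1 / (1 / a - 1 / b) < c := (le_max_right _ _).trans_lt hc
  have hc3 : 1 < c * (1 / a - 1 / b) := by
    rwa [div_lt_iff₀ hd] at hc2
  set s : ℝ := (arcC (MN N) : ℝ) with hs
  have hN' : (c : ℝ) * (2 * (m + 1)) < s := by
    rw [hs]
    exact_mod_cast hN
  have hm0 : (0 : ℝ) ≤ m := Nat.cast_nonneg m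
  have hc0 : (0 : ℝ) < c := hb.trans hcb
  have hsc : (c : ℝ) < s := by nlinarith
  have hs0 : 0 < s := hc0.trans hsc
  -- an integer strictly between `s / b` and `s / a`
  have hgap : 1 < s / a - s / b := by
    have e1 : s / a - s / b = s * (1 / a - 1 / b) := by ring
    rw [e1]
    nlinarith
  set n : ℕ := ⌊s / b⌋₊ + 1 with hn
  have hn1 : s / b < n := by
    rw [hn]
    push_cast
    exact Nat.lt_floor_add_one _
  have hn2 : (n : ℝ) < s / a := by
    rw [hn]
    push_cast
    have := Nat.floor_le (div_nonneg hs0.le hb.le)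
    linarith
  have hn3 : 2 * (m + 1) ≤ n := by
    have h1 : (2 * (m + 1) : ℝ) < s / b := by
      rw [lt_div_iff₀ hb]
      nlinarith
    have h2 : ((2 * (m + 1) : ℕ) : ℝ) < n := by
      push_cast
      exact h1.trans hn1
    exact (Nat.cast_lt.1 h2).le
  have hn0 : (0 : ℝ) < n := (div_pos hs0 hb).trans hn1
  refine ⟨(arcC (ML N (n - 2 * (m + 1))) : ℝ) /
    (Nat.card ((Fin (m + 1) ⊕ Fin (m + 1)) ⊕ Fin (n - 2 * (m + 1))) : ℝ),
    ⟨_, inferInstance, inferInstance, _, rfl, ML_gammoid N _, rfl⟩, ?_⟩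
  have hcard : Nat.card ((Fin (m + 1) ⊕ Fin (m + 1)) ⊕ Fin (n - 2 * (m + 1))) = n := by
    rw [Nat.card_eq_fintype_card]
    simp only [Fintype.card_sum, Fintype.card_fin]
    omega
  rw [hcard, arcC_withLoops (ML_withLoops N _), ← hs]
  constructor
  · rw [lt_div_iff₀ hn0]
    rw [lt_div_iff₀ ha] at hn2
    linarith
  · rw [div_lt_iff₀ hn0]
    rw [div_lt_iff₀ hb] at hn1
    linarith

end final

end Pool.Agent.Results.MP_1bde1f_co.Dense
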